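import Pool.Agent.V11122.MapG4

/-!
# Map graphs on a fixed surface have bounded clique cover degeneracy

Surfaces and graphs embedded in them are encoded in the usual combinatorial way, by flags: a flag
is a mutually incident triple of a vertex, an edge and a 2-cell of a cell decomposition of the
surface (a triangle of the barycentric subdivision), and the three involutions `s0`, `s1`, `s2`
replace the vertex, the edge, the 2-cell of a flag by the only other possible one.
The embedded graph `G_0` is a subgraph of the 1-skeleton of such a decomposition; so its faces need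
not be discs.
-/

namespace Pool.Agent.Results.MP_33e66b_co.SurfaceMapGraphs

open Pool.Agent.V11122.MapG

/-- A cell decomposition of a connected closed surface (orientable or not), by its set of flags. -/
structure SurfaceMap (Φ : Type) where
  s0 : Φ → Φ
  s1 : Φ → Φ
  s2 : Φ → Φ
  invol0 : ∀ x, s0 (s0 x) = x
  invol1 : ∀ x, s1 (s1 x) = x
  invol2 : ∀ x, s2 (s2 x) = x
  ne0 : ∀ x, s0 x ≠ x
  ne1 : ∀ x, s1 x ≠ x
  ne2 : ∀ x, s2 x ≠ x
  comm : ∀ x, s0 (s2 x) = s2 (s0 x)
  ne02 : ∀ x, s0 (s2 x) ≠ x
  connected : ∀ U : Set Φ, U.Nonempty → (∀ x ∈ U, s0 x ∈ U ∧ s1 x ∈ U ∧ s2 x ∈ U) →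
    U = Set.univ

/-- The vertices of the decomposition: classes of flags under `s1` and `s2`. -/
def SurfaceMap.Vertex {Φ : Type} (M : SurfaceMap Φ) : Type :=
  Quot (fun x y : Φ => y = M.s1 x ∨ y = M.s2 x)

/-- The edges of the decomposition: classes of flags under `s0` and `s2`. -/
def SurfaceMap.Edge {Φ : Type} (M : SurfaceMap Φ) : Type :=
  Quot (fun x y : Φ => y = M.s0 x ∨ y = M.s2 x)

/-- The 2-cells of the decomposition: classes of flags under `s0` and `s1`. -/
def SurfaceMap.Cell {Φ : Type} (M : SurfaceMap Φ) : Type :=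
  Quot (fun x y : Φ => y = M.s1 x ∨ y = M.s0 x)

/-- The vertex of a flag. -/
def SurfaceMap.vertex {Φ : Type} (M : SurfaceMap Φ) (x : Φ) : M.Vertex :=
  Quot.mk (fun x y : Φ => y = M.s1 x ∨ y = M.s2 x) x

/-- The edge of a flag. -/
def SurfaceMap.edge {Φ : Type} (M : SurfaceMap Φ) (x : Φ) : M.Edge :=
  Quot.mk (fun x y : Φ => y = M.s0 x ∨ y = M.s2 x) x

/-- The Euler genus of the surface: two minus its Euler characteristic. -/
noncomputable def SurfaceMap.eulerGenus {Φ : Type} (M : SurfaceMap Φ) : ℤ :=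
  2 - ((Nat.card M.Vertex : ℤ) - Nat.card M.Edge + Nat.card M.Cell)

/-- A graph `G_0` that is embedded in the surface, as a subgraph of the 1-skeleton: a set `W` of
vertices and a set `A` of edges whose ends are in `W`. -/
structure SurfaceMap.Embedded {Φ : Type} (M : SurfaceMap Φ) where
  W : Set M.Vertex
  A : Set M.Edge
  ends : ∀ x : Φ, M.edge x ∈ A → M.vertex x ∈ W

/-- The faces of the embedded graph, i.e. the components of its complement in the surface: the
2-cells are glued along all edges that do not belong to the graph. -/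
def SurfaceMap.Embedded.Face {Φ : Type} {M : SurfaceMap Φ} (H : M.Embedded) : Type :=
  Quot (fun x y : Φ => y = M.s0 x ∨ y = M.s1 x ∨ (M.edge x ∉ H.A ∧ y = M.s2 x))

/-- The face of the embedded graph that contains (the interior of) a flag. -/
def SurfaceMap.Embedded.face {Φ : Type} {M : SurfaceMap Φ} (H : M.Embedded) (x : Φ) : H.Face :=
  Quot.mk (fun x y : Φ => y = M.s0 x ∨ y = M.s1 x ∨ (M.edge x ∉ H.A ∧ y = M.s2 x)) x

/-- `G` is a `g`-map graph: there is a graph `H` embedded in a surface of Euler genus `g`, and the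
vertices of `G` are some of its faces (the nations), two of them adjacent when they have a common
vertex of `H` on their boundaries. -/
def IsMapGraph (g : ℕ) {V : Type} (G : SimpleGraph V) : Prop :=
  ∃ (Φ : Type) (_ : Finite Φ) (M : SurfaceMap Φ) (H : M.Embedded) (nation : V → H.Face),
    Nonempty Φ ∧ M.eulerGenus = g ∧ Function.Injective nation ∧
    ∀ u v, G.Adj u v ↔ u ≠ v ∧ ∃ x y : Φ, H.face x = nation u ∧ H.face y = nation v ∧
      M.vertex x = M.vertex y ∧ M.vertex x ∈ H.W

/-- The subgraph of `G` induced by `S` has clique cover number at most `k`. -/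
def CliqueCoverAtMost {V : Type} (G : SimpleGraph V) (S : Set V) (k : ℕ) : Prop :=
  ∃ C : Finset (Set V), C.card ≤ k ∧ (∀ c ∈ C, G.IsClique c) ∧ ⋃₀ (C : Set (Set V)) = S

/-- The clique cover degeneracy of `G` is at most `k`. -/
def CliqueCoverDegeneracyAtMost {V : Type} (G : SimpleGraph V) (k : ℕ) : Prop :=
  ∀ X : Set V, X.Nonempty → ∃ v ∈ X, CliqueCoverAtMost G (G.neighborSet v ∩ X) k

/-- Every `g`-map graph has clique cover degeneracy at most `12 (g + 1)`. -/
theorem result (g : ℕ) {V : Type} (G : SimpleGraph V) (hG : IsMapGraph g G) :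
    CliqueCoverDegeneracyAtMost G (12 * (g + 1)) := by
  classical
  obtain ⟨Φ, hfin, M, H, nation, hne, hgen, hinj, hadj⟩ := hG
  let _ : Fintype Φ := Fintype.ofFinite Φ
  set A : Set Φ := {x | M.edge x ∈ H.A} with hA
  have he0 : ∀ x, M.edge (M.s0 x) = M.edge x := fun x => mk_left M.s0 M.s2 x
  have he2 : ∀ x, M.edge (M.s2 x) = M.edge x := fun x => mk_right M.s0 M.s2 x
  obtain ⟨a0, c1, c2, c3, c4, c5, c6⟩ := cellularize M.s0 M.s1 M.s2 M.invol0 M.invol1 M.invol2
    M.ne0 M.ne1 M.ne2 M.comm M.ne02 A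
    (fun x hx => by
      change M.edge (M.s0 x) ∈ H.A
      rw [he0]; exact hx)
    (fun x hx => by
      change M.edge (M.s2 x) ∈ H.A
      rw [he2]; exact hx)
  -- the three involutions
  have hgem : IsGem a0 M.s1 M.s2 := by
    refine ⟨c1, M.invol1, M.invol2, c2, M.ne1, M.ne2, ?_⟩
    intro U hU h0 h1 h2
    apply M.connected U hU
    intro x hx
    refine ⟨?_, h1 x hx, h2 x hx⟩
    have hwd : ∀ a b, rel2 M.s1 a0 a b → (a ∈ U) = (b ∈ U) := by
      rintro a b (rfl | rfl)
      · apply propext
        exact ⟨h1 a, fun h => by rw [← M.invol1 a]; exact h1 _ h⟩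
      · apply propext
        exact ⟨h0 a, fun h => by rw [← c1 a]; exact h0 _ h⟩
    have h3 := congrArg (Quot.lift (fun a => a ∈ U) hwd) (c4 x)
    have h4 : (M.s0 x ∈ U) = (x ∈ U) := h3
    rw [h4]
    exact hx
  -- the number of flags
  have hflags : Fintype.card Φ ≤ 4 * Nat.card (Quot (rel2 M.s0 M.s2)) := by
    let _ : Fintype (Quot (rel2 M.s0 M.s2)) := Fintype.ofFinite _
    have h1 := Finset.card_le_mul_card_image (s := (Finset.univ : Finset Φ))
      (f := Quot.mk (rel2 M.s0 M.s2)) 4 (by
        intro q hq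
        obtain ⟨x, -, rfl⟩ := Finset.mem_image.1 hq
        have hsub : (Finset.univ.filter (fun y => Quot.mk (rel2 M.s0 M.s2) y =
            Quot.mk (rel2 M.s0 M.s2) x)) ⊆ {x, M.s0 x, M.s2 x, M.s0 (M.s2 x)} := by
          intro y hy
          rw [Finset.mem_filter] at hy
          have hstep : ∀ a, (a = x ∨ a = M.s0 x ∨ a = M.s2 x ∨ a = M.s0 (M.s2 x)) →
              (M.s0 a = x ∨ M.s0 a = M.s0 x ∨ M.s0 a = M.s2 x ∨ M.s0 a = M.s0 (M.s2 x)) ∧
              (M.s2 a = x ∨ M.s2 a = M.s0 x ∨ M.s2 a = M.s2 x ∨ M.s2 a = M.s0 (M.s2 x)) := by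
            rintro a (rfl | rfl | rfl | rfl)
            · exact ⟨Or.inr (Or.inl rfl), Or.inr (Or.inr (Or.inl rfl))⟩
            · exact ⟨Or.inl (M.invol0 _), Or.inr (Or.inr (Or.inr (M.comm _).symm))⟩
            · exact ⟨Or.inr (Or.inr (Or.inr rfl)), Or.inl (M.invol2 _)⟩
            · refine ⟨Or.inr (Or.inr (Or.inl (M.invol0 _))), Or.inr (Or.inl ?_)⟩
              rw [M.comm, M.invol2]
          have hwd : ∀ a b, rel2 M.s0 M.s2 a b →
              (a = x ∨ a = M.s0 x ∨ a = M.s2 x ∨ a = M.s0 (M.s2 x)) =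
              (b = x ∨ b = M.s0 x ∨ b = M.s2 x ∨ b = M.s0 (M.s2 x)) := by
            rintro a b (rfl | rfl)
            · apply propext
              exact ⟨fun h => (hstep a h).1, fun h => by
                have := (hstep _ h).1
                rwa [M.invol0] at this⟩
            · apply propext
              exact ⟨fun h => (hstep a h).2, fun h => by
                have := (hstep _ h).2
                rwa [M.invol2] at this⟩
          have h3 : (y = x ∨ y = M.s0 x ∨ y = M.s2 x ∨ y = M.s0 (M.s2 x)) =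
              (x = x ∨ x = M.s0 x ∨ x = M.s2 x ∨ x = M.s0 (M.s2 x)) :=
            congrArg (Quot.lift _ hwd) hy.2
          have h4 : y = x ∨ y = M.s0 x ∨ y = M.s2 x ∨ y = M.s0 (M.s2 x) := by
            rw [h3]
            exact Or.inl rfl
          simpa using h4
        exact (Finset.card_le_card hsub).trans Finset.card_le_four)
    rw [Finset.card_univ] at h1
    refine h1.trans (Nat.mul_le_mul_left 4 ?_)
    rw [Nat.card_eq_fintype_card]
    exact Finset.card_le_univ _
  have hχ : 4 + Fintype.card Φ ≤ 2 * Nat.card (Quot (rel2 a0 M.s2)) +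
      2 * Nat.card (Quot (rel2 M.s1 M.s2)) + 2 * Nat.card (Quot (rel2 M.s1 a0)) + 2 * g := by
    have h1 : (2 : ℤ) - ((Nat.card (Quot (rel2 M.s1 M.s2)) : ℤ) -
        Nat.card (Quot (rel2 M.s0 M.s2)) + Nat.card (Quot (rel2 M.s1 M.s0))) = g := hgen
    omega
  -- regions of the embedded graph and classes of the new involutions
  let e : H.Face → Quot (rel2 M.s1 a0) := Quot.lift (Quot.mk (rel2 M.s1 a0)) (by
    rintro a b (rfl | rfl | ⟨hb, rfl⟩)
    · exact (c4 a).symm
    · exact (mk_left _ _ _).symm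
    · exact (c5 a hb).symm)
  have hr : ∀ a b, rel2 M.s1 a0 a b → H.face a = H.face b := by
    rintro a b (rfl | rfl)
    · exact Quot.sound (Or.inr (Or.inl rfl))
    · rcases c3 a with h | ⟨h1, h2⟩
      · rw [h]
        exact Quot.sound (Or.inl rfl)
      · rw [h2]
        exact Quot.sound (Or.inr (Or.inr ⟨h1, rfl⟩))
  let r : Quot (rel2 M.s1 a0) → H.Face := Quot.lift H.face hr
  have hre : ∀ f, r (e f) = f := by
    intro f
    induction f using Quot.ind with
    | mk a => rfl
  have hinjν : Function.Injective (fun v => e (nation v)) := by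
    intro u v huv
    apply hinj
    rw [← hre (nation u), ← hre (nation v)]
    exact congrArg r huv
  have hface : ∀ (x : Φ) (v : V), H.face x = nation v ↔ Quot.mk (rel2 M.s1 a0) x = e (nation v) := by
    intro x v
    constructor
    · intro h
      rw [← h]
      rfl
    · intro h
      rw [← hre (nation v), ← h]
  have : Finite V := Finite.of_injective _ hinjν
  let _ : Fintype V := Fintype.ofFinite V
  intro X hX
  obtain ⟨u, hu, C, hC1, hC2, hC3⟩ := exists_vertex hgem g hχ (fun v => e (nation v)) hinjν H.W G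
    (by
      intro u v
      rw [hadj]
      constructor
      · rintro ⟨h1, x, y, h2, h3, h4, h5⟩
        exact ⟨h1, x, y, (hface x u).1 h2, (hface y v).1 h3, h4, h5⟩
      · rintro ⟨h1, x, y, h2, h3, h4, h5⟩
        exact ⟨h1, x, y, (hface x u).2 h2, (hface y v).2 h3, h4, h5⟩)
    X.toFinset (Set.toFinset_nonempty.2 hX)
  refine ⟨u, Set.mem_toFinset.1 hu, C, hC1, hC2, ?_⟩
  rw [hC3]
  ext v
  simp [SimpleGraph.mem_neighborSet]

end Pool.Agent.Results.MP_33e66b_co.SurfaceMapGraphs
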